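import Mathlib
import Pool.Agent.Lib.MP_24bb3f_an.Plain

/-!
Arbitrarily slow dispersive decay for the time-periodically forced Dirac equation.
-/

namespace Pool.Agent.Results.MP_24bb3f_an.SlowDecay

open MeasureTheory Filter Topology
open scoped FourierTransform

/-- The components `α t i` form a continuous curve `[0, ∞) → L²(ℝ; ℂ²)` which solves
`i ∂ₜ α = (i σ₃ ∂ₓ + ν(t)) α` in integrated form against every Schwartz function of `x`. -/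
def IsSolution (ν : ℝ → Matrix (Fin 2) (Fin 2) ℂ) (α : ℝ → Fin 2 → ℝ → ℂ) : Prop :=
  (∀ t, 0 ≤ t → ∀ i, MemLp (α t i) 2 volume) ∧
  (∀ s, 0 ≤ s → ∀ i, Tendsto (fun t => eLpNorm (fun x => α t i x - α s i x) 2 volume)
    (𝓝[Set.Ici 0] s) (𝓝 0)) ∧
  ∀ (φ : SchwartzMap ℝ ℂ) (t : ℝ), 0 ≤ t → ∀ i,
    Complex.I * ((∫ x, φ x * α t i x) - ∫ x, φ x * α 0 i x) =
      ∫ s in (0 : ℝ)..t, ∑ j,
        (!![1, 0; 0, -1] i j * (Complex.I * -∫ x, deriv φ x * α s j x) +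
          ν s i j * ∫ x, φ x * α s j x)

/-- The decay estimate of order `(r, σ)`. The hypothesis on `g` says that `g ∈ L¹` is the tempered
distribution `⟨i ∂ₓ⟩^r α(0)`, that is `𝓕 g = (1 + (2πw)²)^(r/2) 𝓕 α(0)` in the convention of
Mathlib. -/
def Decay (ν : ℝ → Matrix (Fin 2) (Fin 2) ℂ) (r σ : ℝ) : Prop :=
  ∃ c : ℝ, ∀ α, IsSolution ν α → ∀ g : Fin 2 → ℝ → ℂ, (∀ i, Integrable (g i) volume) →
    (∀ (i : Fin 2) (φ : SchwartzMap ℝ ℂ), ∫ x, 𝓕 (fun w => φ w) x * g i x =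
      ∫ x, 𝓕 (fun w : ℝ => (((1 + (2 * Real.pi * w) ^ 2) ^ (r / 2) : ℝ) : ℂ) * φ w) x * α 0 i x) →
    ∀ t : ℝ, 0 < t → ∀ i,
      eLpNorm (α t i) ⊤ volume ≤ ENNReal.ofReal (c / t ^ σ * ∑ j, ∫ x, ‖g j x‖)

theorem result (ε : ℝ) (hε : 0 < ε) :
    ∃ (ν : ℝ → Matrix (Fin 2) (Fin 2) ℂ) (T : ℝ), 0 < T ∧ Function.Periodic ν T ∧
      (∀ i j, Measurable fun t => ν t i j) ∧ (∃ B : ℝ, ∀ t i j, ‖ν t i j‖ ≤ B) ∧
      (∀ t, (ν t).IsHermitian) ∧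
      (∀ f : Fin 2 → ℝ → ℂ, (∀ i, MemLp (f i) 2 volume) → ∃ α, IsSolution ν α ∧
        (∀ i, α 0 i =ᵐ[volume] f i) ∧ ∀ β, IsSolution ν β → (∀ i, β 0 i =ᵐ[volume] f i) →
          ∀ t, 0 ≤ t → ∀ i, β t i =ᵐ[volume] α t i) ∧
      (∃ r σ : ℝ, 0 ≤ r ∧ 0 < σ ∧ Decay ν r σ) ∧
      ∀ r σ : ℝ, 0 ≤ r → 0 < σ → Decay ν r σ → σ ≤ ε :=
  Pool.Agent.Lib.MP_24bb3f_an.plain_main ε hε

end Pool.Agent.Results.MP_24bb3f_an.SlowDecay
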